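import Mathlib

/-!
# MP_b9977e_al: degrees of minimal generators of toric ideals of numerical semigroups

A sharper form of the bound of the question, over an arbitrary field.
-/

set_option autoImplicit false

namespace Pool.Agent.Results.MP_b9977e_al.SharperBound

open Finset in
lemma zhai (S : AddSubmonoid ℕ) (F : ℕ) (hF : F ∉ S) (hF2 : ∀ n, F < n → n ∈ S)
    (e : ℕ) (g : Fin e → ℕ) (hgS : ∀ i, g i ∈ S) (hg0 : ∀ i, 0 < g i)
    (hfac : ∀ s ∈ S, ∃ x : Fin e → ℕ, ∑ i, x i * g i = s) (i0 : Fin e) :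
    2 * (F + 1) + 2 * (g i0 - 1) ≤
      2 * e * Set.ncard {γ : ℕ | γ ∈ S ∧ γ < F} + (g i0 - 1) * e := by
  classical
  set m := g i0 with hm
  let L : Finset ℕ := (range F).filter (· ∈ S)
  have hL : Set.ncard {γ : ℕ | γ ∈ S ∧ γ < F} = L.card := by
    rw [← Set.ncard_coe_finset]
    congr 1
    ext x
    simp [L, and_comm]
  rw [hL]
  let Ap : Finset ℕ := (range (F + m + 1)).filter fun a => a ∈ S ∧ ∀ s ∈ S, s + m ≠ a
  have h1 : Ap ∪ L.image (· + m) = L ∪ Ico (F + 1) (F + m + 1) := by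
    ext a
    simp only [Ap, L, mem_union, mem_filter, mem_range, mem_image, mem_Ico]
    constructor
    · rintro (⟨h1, h2, -⟩ | ⟨s, ⟨h1, h2⟩, rfl⟩)
      · have : a ≠ F := fun h => hF (h ▸ h2)
        by_cases h : a < F
        · exact Or.inl ⟨h, h2⟩
        · right; omega
      · have h3 : s + m ∈ S := S.add_mem h2 (hgS i0)
        have : s + m ≠ F := fun h => hF (h ▸ h3)
        by_cases h : s + m < F
        · exact Or.inl ⟨h, h3⟩
        · right; omega
    · intro h
      have ha : a ∈ S ∧ a < F + m + 1 := by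
        rcases h with h | h
        · exact ⟨h.2, by omega⟩
        · exact ⟨hF2 a (by omega), h.2⟩
      by_cases h3 : ∀ s ∈ S, s + m ≠ a
      · exact Or.inl ⟨ha.2, ha.1, h3⟩
      · push Not at h3
        obtain ⟨s, hs, rfl⟩ := h3
        have : s ≠ F := fun h => hF (h ▸ hs)
        exact Or.inr ⟨s, ⟨by omega, hs⟩, rfl⟩
  have d1 : Disjoint Ap (L.image (· + m)) := by
    rw [Finset.disjoint_left]
    intro a ha hb
    simp only [Ap, L, mem_filter, mem_image] at ha hb
    obtain ⟨s, hs, rfl⟩ := hb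
    exact ha.2.2 s hs.2 rfl
  have d2 : Disjoint L (Ico (F + 1) (F + m + 1)) := by
    rw [Finset.disjoint_left]
    intro a ha hb
    simp only [L, mem_filter, mem_range, mem_Ico] at ha hb
    omega
  have hinj : Function.Injective (· + m) := add_left_injective m
  have hcard : Ap.card = m := by
    have := congrArg card h1
    rw [card_union_of_disjoint d1, card_union_of_disjoint d2, card_image_of_injective _ hinj,
      Nat.card_Ico] at this
    omega
  have hsum : 2 * ∑ a ∈ Ap, a + 2 * (m * L.card) = m * (2 * F + m + 1) := by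
    have := congrArg (fun s : Finset ℕ => ∑ a ∈ s, a) h1
    rw [sum_union d1, sum_union d2, sum_image (fun _ _ _ _ h => hinj h), sum_add_distrib] at this
    simp only [sum_const, smul_eq_mul] at this
    have h2 : ∀ k, 2 * ∑ a ∈ Ico (F + 1) (F + k + 1), a = k * (2 * F + k + 1) := by
      intro k
      induction k with
      | zero => simp
      | succ k ih =>
        rw [show F + (k + 1) + 1 = (F + k + 1) + 1 by ring, sum_Ico_succ_top (by omega), mul_add, ih]
        ring
    have := h2 m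
    nlinarith
  choose! x hx using hfac
  have hApS : ∀ a ∈ Ap, a ∈ S := fun a ha => (mem_filter.1 ha).2.1
  have hsub : ∀ a ∈ Ap, ∀ i k, k ≤ x a i → k * g i ≤ a ∧ a - k * g i ∈ S := by
    intro a ha i k hk
    have h2 := hx a (hApS a ha)
    rw [← add_sum_erase _ _ (mem_univ i)] at h2
    obtain ⟨r, hr⟩ := Nat.exists_eq_add_of_le hk
    rw [hr, add_mul] at h2
    refine ⟨by omega, ?_⟩
    rw [show a - k * g i = r * g i + ∑ j ∈ univ.erase i, x a j * g j by omega]
    exact S.add_mem (S.nsmul_mem (hgS i) r) (S.sum_mem fun j _ => S.nsmul_mem (hgS j) _)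
  have hx0 : ∀ a ∈ Ap, x a i0 = 0 := by
    intro a ha
    by_contra h
    obtain ⟨h2, h3⟩ := hsub a ha i0 1 (by omega)
    exact (mem_filter.1 ha).2.2 _ h3 (by omega)
  have hdir : ∀ i, ∑ a ∈ Ap, x a i * g i ≤ ∑ b ∈ Ap, (F + m - b) := by
    intro i
    have h2 : (Ap.sigma fun a => Icc 1 (x a i)).card ≤
        (Ap.sigma fun b => Icc 1 ((F + m - b) / g i)).card := by
      refine card_le_card_of_injOn (fun p => ⟨p.1 - p.2 * g i, p.2⟩) ?_ ?_
      · rintro ⟨a, k⟩ hp
        simp only [coe_sigma, Set.mem_sigma_iff, mem_coe, mem_Icc] at hp ⊢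
        obtain ⟨h3, h4⟩ := hsub a hp.1 i k hp.2.2
        have h5 := mem_filter.1 hp.1
        rw [mem_range] at h5
        refine ⟨mem_filter.2 ⟨mem_range.2 (by omega), h4, fun s hs h6 => ?_⟩, hp.2.1, ?_⟩
        · refine h5.2.2 (s + k * g i) (S.add_mem hs (S.nsmul_mem (hgS i) k)) (by omega)
        · rw [Nat.le_div_iff_mul_le (hg0 i)]; omega
      · rintro ⟨a, k⟩ hp ⟨a', k'⟩ hp' h
        simp only [coe_sigma, Set.mem_sigma_iff, mem_coe, mem_Icc] at hp hp'
        simp only [Sigma.mk.injEq, heq_eq_eq] at h ⊢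
        obtain ⟨h, rfl⟩ := h
        have := (hsub a hp.1 i k hp.2.2).1
        have := (hsub a' hp'.1 i k hp'.2.2).1
        exact ⟨by omega, rfl⟩
    simp only [card_sigma, Nat.card_Icc, add_tsub_cancel_right] at h2
    rw [← sum_mul]
    refine (Nat.mul_le_mul_right _ h2).trans ?_
    rw [sum_mul]
    exact sum_le_sum fun b _ => Nat.div_mul_le_self _ _
  have hA : ∑ a ∈ Ap, a ≤ (e - 1) * ∑ b ∈ Ap, (F + m - b) := by
    have h2 : ∑ a ∈ Ap, a = ∑ i ∈ univ.erase i0, ∑ a ∈ Ap, x a i * g i := by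
      rw [sum_comm]
      refine sum_congr rfl fun a ha => ?_
      have h3 := hx a (hApS a ha)
      rw [← add_sum_erase _ _ (mem_univ i0), hx0 a ha] at h3
      omega
    rw [h2]
    refine (sum_le_sum fun i _ => hdir i).trans ?_
    simp
  have hB : ∑ b ∈ Ap, (F + m - b) + ∑ a ∈ Ap, a = m * (F + m) := by
    rw [← sum_add_distrib, sum_congr rfl (g := fun _ => F + m)]
    · simp [hcard]
    · intro a ha
      have := mem_range.1 (mem_filter.1 ha).1
      omega
  have he : 0 < e := Fin.pos i0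
  have hm0 : 0 < m := hg0 i0
  obtain ⟨e', rfl⟩ : ∃ e', e = e' + 1 := ⟨e - 1, by omega⟩
  obtain ⟨m', hm'⟩ : ∃ m', m = m' + 1 := ⟨m - 1, by omega⟩
  rw [hm'] at hsum hB hA ⊢
  simp only [add_tsub_cancel_right] at hA ⊢
  generalize ∑ b ∈ Ap, (F + (m' + 1) - b) = B at *
  generalize ∑ a ∈ Ap, a = A at *
  refine Nat.le_of_mul_le_mul_left ?_ (Nat.succ_pos m')
  have h3 : (e' + 1) * A ≤ e' * ((m' + 1) * (F + (m' + 1))) := by rw [← hB]; nlinarith
  have h4 := congrArg ((e' + 1) * ·) hsum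
  simp only [Nat.succ_eq_add_one] at h4 ⊢
  nlinarith

/-- `S` is a numerical semigroup with Frobenius number `F` and minimal generators `g_1, …, g_e`
(in any order). -/
structure IsNumerical (S : AddSubmonoid ℕ) (F : ℕ) {e : ℕ} (g : Fin e → ℕ) : Prop where
  notMem : F ∉ S
  mem : ∀ n : ℕ, F < n → n ∈ S
  inj : Function.Injective g
  range : Set.range g = {x : ℕ | x ∈ S ∧ x ≠ 0 ∧ ∀ a ∈ S, ∀ b ∈ S, a + b = x → a = 0 ∨ b = 0}

/-- The toric ideal: the kernel of `k[x_1,…,x_e] → k[t]`, `x_i ↦ t^{g_i}`. -/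
noncomputable def toricIdeal (k : Type*) [Field k] {e : ℕ} (g : Fin e → ℕ) :
    Ideal (MvPolynomial (Fin e) k) :=
  RingHom.ker (MvPolynomial.aeval (R := k) (fun i : Fin e => (Polynomial.X : Polynomial k) ^ g i))

/-- `f` is a minimal generator of degree `d` of the toric ideal: a homogeneous element of degree `d`
of the toric ideal which is not in `(x_1,…,x_e)` times the toric ideal. -/
def IsMinGen (k : Type*) [Field k] {e : ℕ} (g : Fin e → ℕ) (f : MvPolynomial (Fin e) k) (d : ℕ) :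
    Prop :=
  f ∈ toricIdeal k g ∧ MvPolynomial.IsWeightedHomogeneous (fun i : Fin e => g i) f d ∧
    f ∉ Ideal.span (Set.range (MvPolynomial.X : Fin e → MvPolynomial (Fin e) k)) * toricIdeal k g

section
variable {S : AddSubmonoid ℕ} {F e : ℕ} {g : Fin e → ℕ}

lemma gens (h : IsNumerical S F g) (i : Fin e) :
    g i ∈ S ∧ g i ≠ 0 ∧ ∀ a ∈ S, ∀ b ∈ S, a + b = g i → a = 0 ∨ b = 0 := by
  have : g i ∈ Set.range g := ⟨i, rfl⟩
  rw [h.range] at this
  exact this

lemma fac (h : IsNumerical S F g) : ∀ s ∈ S, ∃ x : Fin e → ℕ, ∑ i, x i * g i = s := by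
  intro s
  induction s using Nat.strong_induction_on with
  | _ s ih =>
    intro hs
    by_cases h0 : s = 0
    · exact ⟨0, by simp [h0]⟩
    by_cases h1 : ∀ a ∈ S, ∀ b ∈ S, a + b = s → a = 0 ∨ b = 0
    · have : s ∈ Set.range g := by rw [h.range]; exact ⟨hs, h0, h1⟩
      obtain ⟨i, rfl⟩ := this
      exact ⟨Pi.single i 1, by simp [Pi.single_apply]⟩
    · push Not at h1
      obtain ⟨a, ha, b, hb, rfl, ha0, hb0⟩ := h1
      obtain ⟨x, hx⟩ := ih a (by omega) ha
      obtain ⟨y, hy⟩ := ih b (by omega) hb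
      exact ⟨x + y, by simp [add_mul, Finset.sum_add_distrib, hx, hy]⟩

lemma two_le (h : IsNumerical S F g) : 2 ≤ e := by
  by_contra hc
  have hF0 : F ≠ 0 := fun h0 => h.notMem (h0 ▸ S.zero_mem)
  obtain ⟨x, hx⟩ := fac h (F + 1) (h.mem _ (by omega))
  obtain ⟨y, hy⟩ := fac h (F + 2) (h.mem _ (by omega))
  have h01 : e = 0 ∨ e = 1 := by omega
  rcases h01 with rfl | rfl
  · simp at hx
  · simp at hx hy
    have h1 : g 0 ∣ 1 := by
      have h2 : g 0 ∣ F + 1 := ⟨x 0, by rw [← hx]; ring⟩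
      have h3 : g 0 ∣ F + 2 := ⟨y 0, by rw [← hy]; ring⟩
      have := (Nat.dvd_add_right h2).1 (show g 0 ∣ (F + 1) + 1 from h3)
      exact this
    have h4 : g 0 = 1 := Nat.dvd_one.1 h1
    apply h.notMem
    have := S.nsmul_mem (gens h 0).1 F
    rw [h4] at this
    simpa using this

/-- every minimal generator has degree at most `F + g_i + g_j` for some `i ≠ j` -/
lemma deg_le (k : Type*) [Field k] (h : IsNumerical S F g) (f : MvPolynomial (Fin e) k) (d : ℕ)
    (hf' : IsMinGen k g f d) : ∃ i j, i ≠ j ∧ d ≤ F + g i + g j := by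
  obtain ⟨hf, hhom, hnot⟩ := hf'
  by_contra hkey
  push Not at hkey
  have hfac := fac h
  have hF2 := h.mem
  have hg := gens h
  have he := two_le h
  have hd0 : d ≠ 0 := by
    have := hkey ⟨0, by omega⟩ ⟨1, by omega⟩ (by simp)
    omega
  apply hnot
  unfold toricIdeal at *
  set φ := MvPolynomial.aeval (R := k) (fun i : Fin e => (Polynomial.X : Polynomial k) ^ g i)
    with hφ
  set J := Ideal.span (Set.range (MvPolynomial.X : Fin e → MvPolynomial (Fin e) k)) *
    RingHom.ker φ with hJ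
  have hmon : ∀ u : Fin e →₀ ℕ, φ (MvPolynomial.monomial u 1)
      = Polynomial.X ^ (∑ i, u i * g i) := by
    intro u
    rw [hφ, MvPolynomial.aeval_monomial, map_one, one_mul, Finsupp.prod_fintype _ _ (by simp),
      ← Finset.prod_pow_eq_pow_sum]
    exact Finset.prod_congr rfl fun i _ => by rw [← pow_mul, mul_comm]
  have hshare : ∀ (u v : Fin e →₀ ℕ) (i : Fin e), ∑ h, u h * g h = ∑ h, v h * g h → u i ≠ 0 →
      v i ≠ 0 → MvPolynomial.monomial u (1:k) - MvPolynomial.monomial v 1 ∈ J := by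
    intro u v i huv hu hv
    obtain ⟨u', rfl⟩ : ∃ u', u = Finsupp.single i 1 + u' :=
      exists_add_of_le (Finsupp.single_le_iff.2 (by omega))
    obtain ⟨v', rfl⟩ : ∃ v', v = Finsupp.single i 1 + v' :=
      exists_add_of_le (Finsupp.single_le_iff.2 (by omega))
    have e1 : ∀ w : Fin e →₀ ℕ, MvPolynomial.monomial (Finsupp.single i 1 + w) (1:k)
        = MvPolynomial.X i * MvPolynomial.monomial w 1 := by
      intro w
      rw [MvPolynomial.X, MvPolynomial.monomial_mul, one_mul]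
    rw [e1, e1, ← mul_sub]
    refine Ideal.mul_mem_mul (Ideal.subset_span ⟨i, rfl⟩) ?_
    rw [RingHom.mem_ker, map_sub, hmon, hmon, sub_eq_zero]
    congr 1
    simp only [Finsupp.add_apply, add_mul, Finset.sum_add_distrib] at huv
    omega
  have hall : ∀ u v : Fin e →₀ ℕ, ∑ h, u h * g h = d → ∑ h, v h * g h = d →
      MvPolynomial.monomial u (1:k) - MvPolynomial.monomial v 1 ∈ J := by
    intro u v hu hv
    have hex : ∀ u : Fin e →₀ ℕ, ∑ h, u h * g h = d → ∃ i, u i ≠ 0 := by
      intro u hu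
      by_contra h
      push Not at h
      simp [h] at hu
      omega
    obtain ⟨i, hi⟩ := hex u hu
    obtain ⟨j, hj⟩ := hex v hv
    by_cases hij : i = j
    · subst hij
      exact hshare u v i (hu.trans hv.symm) hi hj
    have h1 := hkey i j hij
    obtain ⟨x, hx⟩ := hfac (d - g i - g j) (hF2 _ (by omega))
    let w : Fin e →₀ ℕ := Finsupp.equivFunOnFinite.symm x + Finsupp.single i 1 + Finsupp.single j 1
    have hw : ∑ h, w h * g h = d := by
      simp only [w, Finsupp.add_apply, add_mul, Finset.sum_add_distrib,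
        Finsupp.equivFunOnFinite_symm_apply_apply, hx, Finsupp.single_apply]
      simp
      omega
    have h2 := hshare u w i (hu.trans hw.symm) hi (by simp [w])
    have h3 := hshare w v j (hw.trans hv.symm) (by simp [w]) hj
    simpa using J.add_mem h2 h3
  have hsupp : ∀ u ∈ f.support, ∑ h, u h * g h = d := by
    intro u hu
    have := hhom (MvPolynomial.mem_support_iff.1 hu)
    rw [Finsupp.weight_apply, Finsupp.sum_fintype _ _ (by simp)] at this
    simpa using this
  by_cases hf0 : f = 0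
  · rw [hf0]; exact J.zero_mem
  obtain ⟨u0, hu0⟩ := MvPolynomial.support_nonempty.2 hf0
  have hf1 : f = ∑ u ∈ f.support, MvPolynomial.coeff u f • MvPolynomial.monomial u (1:k) := by
    conv_lhs => rw [f.as_sum]
    exact Finset.sum_congr rfl fun u _ => by simp [MvPolynomial.smul_monomial]
  have hc : ∑ u ∈ f.support, MvPolynomial.coeff u f = 0 := by
    have h1 : φ f = 0 := hf
    rw [hf1, map_sum] at h1
    rw [Finset.sum_congr rfl (g := fun u => MvPolynomial.coeff u f • Polynomial.X ^ d)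
      fun u hu => by rw [map_smul, hmon, hsupp u hu], ← Finset.sum_smul] at h1
    simpa using h1
  have hf2 : f = ∑ u ∈ f.support, MvPolynomial.coeff u f •
      (MvPolynomial.monomial u (1:k) - MvPolynomial.monomial u0 1) := by
    simp only [smul_sub, Finset.sum_sub_distrib]
    rw [← Finset.sum_smul, hc, zero_smul, sub_zero]
    exact hf1
  rw [hf2]
  refine J.sum_mem fun u hu => ?_
  rw [MvPolynomial.smul_eq_C_mul]
  exact J.mul_mem_left _ (hall _ _ (hsupp u hu) (hsupp u0 hu0))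


end

/-- Let `Γ` be a numerical semigroup with Frobenius number `F`, minimal generators `g_1, …, g_e`,
`η` elements below `F`, and let `g_1` be the multiplicity (the smallest generator, of index `i₀`).
For every field `k` and every minimal generator `f` of degree `d` of the toric ideal over `k`
there are `i ≠ j` with `d ≤ F + g_i + g_j` and
`d ≤ e η - 1 + (e - 2)(g_1 - 1)/2 + g_i + g_j`; in particular
`d ≤ e (η - 1) + ∑ g_i + 1 - (e - 2)(g_1 - 1)/2`. -/
theorem result (S : AddSubmonoid ℕ) (F e : ℕ) (g : Fin e → ℕ) (h : IsNumerical S F g)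
    (i₀ : Fin e) (hi₀ : ∀ i, g i₀ ≤ g i) (k : Type*) [Field k] (f : MvPolynomial (Fin e) k) (d : ℕ)
    (hf : IsMinGen k g f d) :
    (∃ i j, i ≠ j ∧ d ≤ F + g i + g j ∧
      2 * d + 2 ≤ 2 * (e * Set.ncard {γ : ℕ | γ ∈ S ∧ γ < F}) + (e - 2) * (g i₀ - 1) +
        2 * (g i + g j)) ∧
    2 * d + (e - 2) * (g i₀ - 1) ≤
      2 * (e * (Set.ncard {γ : ℕ | γ ∈ S ∧ γ < F} - 1) + ∑ i, g i + 1) := by
  obtain ⟨i, j, hij, hd⟩ := deg_le k h f d hf
  have hg := gens h
  have he := two_le h
  have hF0 : F ≠ 0 := fun h0 => h.notMem (h0 ▸ S.zero_mem)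
  have hη : 1 ≤ Set.ncard {γ : ℕ | γ ∈ S ∧ γ < F} :=
    (Set.ncard_pos ((Set.finite_lt_nat F).subset fun _ h => h.2)).2 ⟨0, S.zero_mem, by omega⟩
  have hz := zhai S F h.notMem h.mem e g (fun i => (hg i).1)
    (fun i => Nat.pos_of_ne_zero (hg i).2.1) (fac h) i₀
  have hm := Nat.pos_of_ne_zero (hg i₀).2.1
  have h1 : ∑ h, g h = g i + (g j + ∑ h ∈ (Finset.univ.erase i).erase j, g h) := by
    rw [Finset.add_sum_erase _ _ (by simpa using hij.symm), Finset.add_sum_erase _ _
      (Finset.mem_univ _)]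
  have h2 : (e - 2) * g i₀ ≤ ∑ h ∈ (Finset.univ.erase i).erase j, g h := by
    have := Finset.card_nsmul_le_sum ((Finset.univ.erase i).erase j) g (g i₀)
      fun h _ => hi₀ h
    rw [Finset.card_erase_of_mem (by simpa using hij.symm),
      Finset.card_erase_of_mem (Finset.mem_univ _)] at this
    simpa [Nat.sub_sub] using this
  have key : 2 * d + 2 ≤ 2 * (e * Set.ncard {γ : ℕ | γ ∈ S ∧ γ < F}) + (e - 2) * (g i₀ - 1) +
        2 * (g i + g j) := by
    generalize Set.ncard {γ : ℕ | γ ∈ S ∧ γ < F} = η at *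
    generalize g i₀ = m at *
    obtain ⟨m, rfl⟩ : ∃ k, m = k + 1 := ⟨m - 1, by omega⟩
    generalize g i = a at *
    generalize g j = b at *
    clear h1 h2 hi₀ hij i j i₀ hg hf f h
    obtain ⟨e, rfl⟩ : ∃ k, e = k + 2 := ⟨e - 2, by omega⟩
    simp only [add_tsub_cancel_right] at *
    nlinarith
  refine ⟨⟨i, j, hij, hd, key⟩, ?_⟩
  rw [h1]
  generalize Set.ncard {γ : ℕ | γ ∈ S ∧ γ < F} = η at *
  generalize g i₀ = m at *
  obtain ⟨m, rfl⟩ : ∃ k, m = k + 1 := ⟨m - 1, by omega⟩
  obtain ⟨η, rfl⟩ : ∃ k, η = k + 1 := ⟨η - 1, by omega⟩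
  generalize ∑ h ∈ (Finset.univ.erase i).erase j, g h = R at *
  generalize g i = a at *
  generalize g j = b at *
  clear h1 hi₀ hij i j i₀ hg hf f h hz
  obtain ⟨e, rfl⟩ : ∃ k, e = k + 2 := ⟨e - 2, by omega⟩
  simp only [add_tsub_cancel_right] at *
  nlinarith

end Pool.Agent.Results.MP_b9977e_al.SharperBound
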